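import Pool.Agent.FS.GlpOrd.Fix

/-!
In the polymodal provability logic over any linear order of modalities with a least element every
exact formula is projective.
-/

set_option autoImplicit false

namespace Pool.Agent.Results.MP_d338c6_lc.AnyModalities

open Pool.Agent.FS.GlpOrd

theorem result (O : Type) [LinearOrder O] [OrderBot O] (m : ℕ) (φ : Fm O (Fin m)) (β : Type)
    (σ : Fin m → Fm O β)
    (hex : ∀ ψ : Fm O (Fin m), Der (fun _ => False) (ψ.subst σ) ↔ Der (fun a => a = φ) ψ) :
    ∃ τ : Fin m → Fm O (Fin m), Der (fun _ => False) (φ.subst τ) ∧ ∀ i,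
      Der (fun a => a = φ) (Fm.imp (Fm.var i) (τ i)) ∧
        Der (fun a => a = φ) (Fm.imp (τ i) (Fm.var i)) :=
  exact_projective φ σ ((hex φ).2 (Der.hyp φ rfl)) fun ψ => (hex ψ).1

end Pool.Agent.Results.MP_d338c6_lc.AnyModalities
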