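import Pool.Agent.Lib.MP_d338c6_lc.Alg

set_option autoImplicit false

namespace Pool.Agent.Results.MP_d338c6_lc.ExactProjective

open Pool.Agent.Lib.MP_d338c6_lc

/-- Let `(F, b)` be the free GLP-algebra on `k` generators, `φ` an element of it and `(A, c)` the
quotient of `F` by the least filter containing `φ` and closed under all boxes. Then `A` embeds in
a free GLP-algebra iff it is a retract of a finitely generated free GLP-algebra. -/
theorem result (k : ℕ) (F : Type) [BooleanAlgebra F] (b : ℕ → F → F) (g : Fin k → F)
    (hF : IsFree b g) (φ : F) (A : Type) [BooleanAlgebra A] (c : ℕ → A → A)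
    (p : BoundedLatticeHom F A) (hp : Presents b φ c p) : IsExact c ↔ IsProj c :=
  exact_iff_proj hF hp

end Pool.Agent.Results.MP_d338c6_lc.ExactProjective
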