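import Pool.Agent.Lib.MP_d338c6_lc.Fix
import Pool.Agent.Lib.MP_d338c6_lc.CritDefs

set_option autoImplicit false

namespace Pool.Agent.Results.MP_d338c6_lc.ProjectiveCriterion

open Pool.Agent.Lib.MP_d338c6_lc Pool.Agent.Lib.MP_d338c6_lc.Fm

theorem outer_iff {α : Type} {v : Fm α → Prop} (hv : Pt v) (a : α → Bool) (φ : Fm α) :
    v (outer a φ) ↔ pe (fun i => a i = true) (fun j => v (box j.1 j.2)) φ := by
  induction φ with
  | var i =>
    cases h : a i
    · simpa [outer, pe, h] using hv.bot
    · simpa [outer, pe, h] using (hv.imp bot bot).2 id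
  | bot => exact ⟨hv.bot, False.elim⟩
  | imp b c ihb ihc => simp only [outer, pe, hv.imp, ihb, ihc]
  | box k b _ => exact Iff.rfl

theorem disj_iff {α : Type} {v : Fm α → Prop} (hv : Pt v) (l : List (Fm α)) :
    v (disj l) ↔ ∃ b ∈ l, v b := by
  induction l with
  | nil => simpa [disj] using hv.bot
  | cons b l ih =>
    have := hv.bot
    simp only [disj, hv.imp, ih, List.mem_cons, exists_eq_or_imp]
    tauto

/-- A formula `φ` of GLP has a projective unifier iff GLP proves that `[0] φ` implies one of the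
formulas obtained from `φ` by putting truth values for the variables outside the boxes. -/
theorem result (n : ℕ) (φ : Fm (Fin n)) :
    (∃ τ : Fin n → Fm (Fin n), Prv (subst τ φ) ∧
      ∀ i, Der (fun b => b = φ) (imp (var i) (τ i)) ∧ Der (fun b => b = φ) (imp (τ i) (var i))) ↔
    ∃ l : List (Fin n → Bool), Prv (imp (box 0 φ) (disj (l.map fun a => outer a φ))) := by
  classical
  constructor
  · rintro ⟨τ, h1, h2⟩
    have hrep : ∀ b : Fm (Fin n), ∀ v, Pt v → v φ → v (box 0 φ) → (v (subst τ b) ↔ v b) := by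
      intro b
      induction b with
      | var i =>
        intro v hv a1 a2
        exact ⟨(hv.imp _ _).1 ((h2 i).2.sem v hv a1 a2), (hv.imp _ _).1 ((h2 i).1.sem v hv a1 a2)⟩
      | bot => intro v _ _ _; exact Iff.rfl
      | imp b c ihb ihc =>
        intro v hv a1 a2
        simp only [subst_imp, hv.imp]
        rw [ihb v hv a1 a2, ihc v hv a1 a2]
      | box k b ih =>
        intro v hv a1 a2
        exact box_congr hv (fun w hw hR => ih w hw (hR _ (hv.mono (Nat.zero_le k) a2))
          (hv.box_succ (Nat.zero_le k) hR a2))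
    refine ⟨Finset.univ.toList, complete fun v hv => (hv.imp _ _).2 fun hb => (disj_iff hv _).2
      ⟨_, List.mem_map_of_mem (a := fun i => decide (v (τ i)))
        (Finset.mem_toList.2 (Finset.mem_univ _)), (outer_iff hv _ _).2 ?_⟩⟩
    refine (pe_congr φ (fun i => by simp) (fun j _ => ?_)).1 ((subst_iff hv τ φ).1 (hv.thm _ h1))
    exact box_congr hv (fun w hw hR => hrep j.2 w hw (hR _ (hv.mono (Nat.zero_le _) hb))
      (hv.box_succ (Nat.zero_le _) hR hb))
  · rintro ⟨l, hl⟩
    obtain ⟨τ, h1, h2⟩ := projective_of_ext φ fun x hx hb => by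
      obtain ⟨b, hb', h⟩ := (disj_iff hx _).1 ((hx.imp _ _).1 (hx.thm _ hl) hb)
      obtain ⟨a, -, rfl⟩ := List.mem_map.1 hb'
      exact ⟨_, (outer_iff hx a φ).1 h⟩
    exact ⟨τ, h1, fun i => ⟨Der.of_sem fun v hv a b => (hv.imp _ _).2 (h2 v hv a b i).2,
      Der.of_sem fun v hv a b => (hv.imp _ _).2 (h2 v hv a b i).1⟩⟩

end Pool.Agent.Results.MP_d338c6_lc.ProjectiveCriterion
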